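import Pool.Agent.K4H64.Ho.CurvB
import Pool.Agent.K4H64.Ho.Spec

set_option autoImplicit false

/-!
# Specialness and dense entire curves over the common base of homogeneous fibrations

Let `F` be an irreducible polynomial in `N` variables over `ℂ`, and let `K` be the function field of
the hypersurface `X : F = 0` (every complex variety is birational to such a hypersurface). Let
`L 1, ..., L m` be intermediate fields of `K`, the function fields of the bases of rational
fibrations of `X`. We suppose that each generic fibre has a projective model over `L i` whose global
vector fields generate its tangent space at the generic point (torsors under abelian varieties or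
other connected algebraic groups, toric, homogeneous and almost homogeneous varieties, of any
dimension; no section, no smoothness and no condition on the degenerate fibres is supposed). The
elements of `K` which are algebraic over all the `L i` form the function field of a variety `B`, the
common base of the fibrations: the general fibres of `X ⇢ B` are the closures of the sets of the
points which can be connected by chains of fibres of the given fibrations.

In our result `HomogeneousFibrations` the base `B` is a point, and `X` is special and Brody-special.
Here the base has positive dimension, so that `X` need not be special. We show that both sides of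
Campana's conjecture are decided over `B`:

(a) the rational maps of `X` which are defined by sections of the powers of rank one sheaves of
forms (for example the Iitaka fibrations of the Bogomolov sheaves, and the Iitaka fibration of `X`)
factor through `B`;

(b) there is a nonempty open subset `U` of `X` such that every entire curve `f` which is Zariski
dense over `B`, and passes through a point of `U` at the time `t₀`, can be replaced by an entire
curve `f'` which is Zariski dense in `X`, has the same image in `B` (for all times) and the same
value at the time `t₀`;

(c) so all projective varieties dominated by `X` have Zariski dense entire curves, provided that the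
entire curves in `X` which are Zariski dense over `B` are not contained in one proper closed subset
of `X`. (The converse is clear for projective models of `X`: a Zariski dense entire curve is Zariski
dense over `B`.)

The proof. Let `C` be the function field of `B`. The vector fields tangent to one of the fibrations
generate the Lie algebra of all derivations of `K` over `C`. Among the meromorphic curves with the
same image in `B` and the same value at `t₀` as `f` choose one, `P`, of maximal transcendence degree
over `ℂ`. The global vector fields on the generic fibres of the fibrations can be integrated, with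
an entire function as the time: this moves `P` to other such curves. So the vanishing ideal of `P`
is stable under the vector fields, hence under all the derivations of `K` over `C` (up to the
denominator `g` which defines the complement of `U`). As `P` is Zariski dense over `B`, its ideal is
zero: otherwise let `Q` be in this ideal, of minimal degree in coordinates of the fibre; then the
derivatives of `Q` along the fibre vanish, and `Q` is a function on `B`.
-/

namespace Pool.Agent.Results.MP_1209e6_ag.CurvesOverTheBase

open MvPolynomial Filter Pool.Agent.W599.CB Pool.Agent.Y742.GG Pool.Agent.W602.GT FF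

variable {K : Type} [Field K] [Algebra ℂ K]

/-- The derivation `D` of `K` is a global vector field on the projective variety over `L` with the
generic point `[ξ₀ : ... : ξₙ]`: it is linear over `L`, and maps the coordinate ring
`L[ξ₀/ξᵢ, ..., ξₙ/ξᵢ]` of each affine chart to itself. -/
def IsGlobalVectorField (L : IntermediateField ℂ K) {n : ℕ} (ξ : Fin (n + 1) → K)
    (D : Derivation ℂ K K) : Prop :=
  (∀ a ∈ L, D a = 0) ∧
    ∀ i j, D (ξ j / ξ i) ∈ Algebra.adjoin L (Set.range fun k => ξ k / ξ i)

/-- `K` is the function field of a projective variety over `L`, with the generic point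
`[ξ₀ : ... : ξₙ]`, whose global vector fields generate, over `K`, the space of all vector fields
(derivations of `K` over `L`). -/
def IsHomogeneousFibration (L : IntermediateField ℂ K) : Prop :=
  ∃ (n : ℕ) (ξ : Fin (n + 1) → K), (∀ i, ξ i ≠ 0) ∧
    IntermediateField.adjoin L (Set.range fun k => ξ k / ξ 0) = ⊤ ∧
    ∀ E : Derivation ℂ K K, (∀ a ∈ L, E a = 0) →
      E ∈ Submodule.span K {D | IsGlobalVectorField L ξ D}

/-- The rational function `a ∈ K` comes from the common base of the fibrations `L i`: it is
algebraic over each of the fields `L i`. -/
def IsFromBase {m : ℕ} (L : Fin m → IntermediateField ℂ K) (a : K) : Prop :=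
  ∀ i, IsAlgebraic (L i) a

/-- `f` is a meromorphic (entire, in a projective model) curve in the hypersurface `F = 0`: its
coordinates are meromorphic functions on `ℂ`, and `F (f t) = 0` for all `t` off a discrete closed
set. -/
def IsCurve {N : ℕ} (F : MvPolynomial (Fin N) ℂ) (f : ℂ → Fin N → ℂ) : Prop :=
  (∀ l t, MeromorphicAt (fun z => f z l) t) ∧ ∀ᶠ t in codiscrete ℂ, eval (f t) F = 0

/-- The polynomial `p` vanishes on the curve `f` (off a discrete closed set). -/
def Vanishes {N : ℕ} (f : ℂ → Fin N → ℂ) (p : MvPolynomial (Fin N) ℂ) : Prop :=
  ∀ᶠ t in codiscrete ℂ, eval (f t) p = 0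

/-- The image of the curve `f` in the common base of the fibrations is Zariski dense: a rational
function `p / q` which comes from the base, with a denominator `q` which does not vanish on `f`,
vanishes on `f` only if it is zero. -/
def IsDenseOverBase {N m : ℕ} (x : Fin N → K) (L : Fin m → IntermediateField ℂ K)
    (f : ℂ → Fin N → ℂ) : Prop :=
  ∀ p q : MvPolynomial (Fin N) ℂ, ¬ Vanishes f q → IsFromBase L (aeval x p / aeval x q) →
    Vanishes f p → aeval x p = 0

/-- Let `K` be the function field of the hypersurface `F = 0`, let `L i` be finitely many
intermediate fields such that `K` is over `L i` the function field of a projective variety whose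
tangent space at the generic point is generated by global vector fields. Suppose that the common
base of the fibrations is not a point. Then

(a) if `θ` is a nonzero rational `p`-form on `X`, `p ≥ 1`, and `f₀ θᵈ` and `f₁ θᵈ` are regular at
all prime divisors of all models of `K`, then the function `f₁ / f₀` comes from the base;

(b) there is a polynomial `g` which does not vanish on the hypersurface such that for each curve `f`
in the hypersurface which is Zariski dense over the base, and each `t₀` at which `f` is holomorphic
and `g (f t₀) ≠ 0`, there is a Zariski dense curve `f'` in the hypersurface, holomorphic at `t₀`,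
with `f' t₀ = f t₀`, which has the same image in the base as `f`: `(p / q) (f' t) = (p / q) (f t)`
for the rational functions `p / q` which come from the base, with `q (f t₀) ≠ 0`;

(c) if no hypersurface `g = 0` which does not contain `F = 0` contains all the curves which are
Zariski dense over the base, then every projective variety dominated by `F = 0` has a Zariski dense
entire curve. -/
theorem result {N m : ℕ} (F : MvPolynomial (Fin N) ℂ) {K : Type} [Field K] [Algebra ℂ K]
    {x : Fin N → K} (hx : IsGenericPoint F x)
    (L : Fin m → IntermediateField ℂ K) (hL : ∀ i, IsHomogeneousFibration (L i))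
    (_hB : ∃ a : K, IsFromBase L a ∧ a ∉ Set.range (algebraMap ℂ K)) :
    (∀ w : ℕ, Algebra.trdeg ℂ K = w → ∀ p : ℕ, 1 ≤ p →
      ∀ θ : AlternatingMap K (Derivation ℂ K K) K (Fin p), θ ≠ 0 → ∀ (d : ℕ) (f₀ f₁ : K),
        (∀ P : Place ℂ K, Divisorial w P → ∀ D : Fin p → Derivation ℂ K K,
          (∀ i, DerReg P (D i)) → P.Reg (f₀ * θ D ^ d) ∧ P.Reg (f₁ * θ D ^ d)) →
        IsFromBase L (f₁ / f₀)) ∧
    (∃ g : MvPolynomial (Fin N) ℂ, aeval x g ≠ 0 ∧ ∀ (f : ℂ → Fin N → ℂ) (t₀ : ℂ),
      IsCurve F f → IsDenseOverBase x L f → (∀ l, AnalyticAt ℂ (fun z => f z l) t₀) →
      eval (f t₀) g ≠ 0 →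
      ∃ f' : ℂ → Fin N → ℂ, IsCurve F f' ∧ (∀ p, Vanishes f' p → aeval x p = 0) ∧
        (∀ l, AnalyticAt ℂ (fun z => f' z l) t₀) ∧ f' t₀ = f t₀ ∧
        ∀ p q : MvPolynomial (Fin N) ℂ, eval (f t₀) q ≠ 0 → IsFromBase L (aeval x p / aeval x q) →
          ∀ᶠ t in codiscrete ℂ, eval (f' t) p / eval (f' t) q = eval (f t) p / eval (f t) q) ∧
    ((∀ g : MvPolynomial (Fin N) ℂ, aeval x g ≠ 0 →
        ∃ f : ℂ → Fin N → ℂ, IsCurve F f ∧ IsDenseOverBase x L f ∧ ¬ Vanishes f g) →
      ∀ (M : ℕ) (ξ : Fin (M + 1) → MvPolynomial (Fin N) ℂ),
        (ratImage {v | eval v F = 0} ξ).Nonempty →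
        IsBrodySpecial (zariskiClosure (ratImage {v | eval v F = 0} ξ))) := by
  choose n η hη hgen hspan using hL
  obtain ⟨g, hg, h⟩ := Pool.Agent.K4H64.Ho.curves hx L η hη hgen hspan
  refine ⟨?_, ⟨g, hg, ?_⟩, ?_⟩
  · intro w htr p hp θ hθ d f₀ f₁ hreg i
    have h1 := Pool.Agent.K4H64.Ho.form_alg htr hx.generates (L i) (η i) (hη i) (hgen i)
      (hspan i) θ hθ d (fun j : Fin (p + 1) => if j = 0 then f₀ else f₁)
      (fun P hP E hE j => by
        by_cases hj : j = 0
        · simp only [hj, if_true]
          exact (hreg P hP E hE).1
        · simp only [if_neg hj]
          exact (hreg P hP E hE).2) (Fin.succ ⟨0, by omega⟩)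
    simpa [Fin.succ_ne_zero] using h1
  · intro f t₀ hf hd h0 hfg
    obtain ⟨f', h1, h2, h3, h4, h5, -⟩ := h f t₀ hf h0 hfg hd
    refine ⟨f', h1, h4, h2, h3, fun p q hq hpq => ?_⟩
    have hne : ∀ f'' : ℂ → Fin N → ℂ, IsCurve F f'' →
        (∀ l, AnalyticAt ℂ (fun z => f'' z l) t₀) → eval (f'' t₀) q ≠ 0 →
        ∀ᶠ t in codiscrete ℂ, eval (f'' t) q ≠ 0 := by
      intro f'' h1 h2 h3
      obtain ⟨A, B, hrep, hP⟩ := Pool.Agent.K4H64.Ho.exists_rep h1 h2
      exact Pool.Agent.K4H64.Ho.cod_sub
        ((hrep.aeval q).ne (Pool.Agent.K4H64.Ho.ne_of_r hP h3))
    have h6 := hne f hf h0 hq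
    have h7 := hne f' h1 h2 (by rw [h3]; exact hq)
    filter_upwards [h5 p q hq hpq, h6, h7] with t e1 e2 e3
    rw [div_eq_div_iff e3 e2, e1]
  · intro hU M ξ hξ
    obtain ⟨f, hf, hd, hfg⟩ := hU g hg
    obtain ⟨t₀, h0, h1⟩ := Pool.Agent.K4H64.Ho.exists_time hf hfg
    obtain ⟨f', -, -, -, -, -, h2⟩ := h f t₀ hf h0 h1 hd
    exact h2 M ξ hξ

end Pool.Agent.Results.MP_1209e6_ag.CurvesOverTheBase
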