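import Pool.Agent.K4H65.DM.Camp

/-!
MP_1209e6_ag, Q1: Campana's conjecture for the projective varieties which are dominated, with degree
at most `r`, by varieties with multiple fibres over a projective line.

`V` is a closed subset of `P^N × P^1 × ... × P^1` (`n` lines, for instance `n = 1`). The arcs in `V`
which are not contained in a given closed subset `R = 0` meet the fibres of `V` over finitely many
points `c` of the lines (`c ∈ A p` for the `p`-th line) with contact order `0`, `∞` or at least
`m p c` (`MultipleFibres`). The multiplicities are large with respect to `r` (`Wide`): for all
`g, s ≥ 1` with `g s ≤ r` and all lines the sum of the numbers `1 - 1 / ⌈m p c / g⌉` is larger than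
`2 s`. This holds for instance if `m p c > r` for all `c ∈ A p` and `∑ (1 - 1 / m p c) > 2 r`
(`wide_example`).

`X` is any projective variety for which there are a variety `W`, a dominant rational map `W ⇢ X`
which is generically finite of degree at most `r`, and a rational map `W ⇢ V`, with image not
contained in `R = 0`, such that the image of `W ⇢ P^1 × ... × P^1` is not a point. The fibres of
this map can have any dimension, and they can be any varieties, for instance rational or abelian; so
`X` can be covered by rational curves, and contain many entire curves.

The theorem: `X` is not special, and `X` is not Brody-special. So Campana's conjecture (Q1) holds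
for all these varieties.

For `r = 1`, `X` has a fibration over an orbifold line of general type. For `r > 1`, `X` has in
general no map to a curve which can be seen from the data: the map `W ⇢ P^1` defines a multivalued
function on `X`, with unbounded branching. `X` is not assumed to be a quotient, and an entire curve
in `X` lifts only to an algebroid curve in `W`. Finite images of bounded degree of varieties which
are not special can be special (`P^1 × Z`, for `Z` special, is the image of `C × Z` for a
hyperelliptic curve `C`), so that a condition on `r` is necessary.

Proof. Let `d ≥ 1` be the transcendence degree of the field generated by the conjugates of the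
functions on `W` over the function field of `X`. The Bogomolov sheaf is given by the `d`-form
`dx 1 ∧ ... ∧ dx d` on `X`, where the `x i` are norms of translates of these functions. Its sections
are norms of determinants of the derived minimal polynomials, divided by powers of norms.
-/

set_option autoImplicit false

open FF IntermediateField

namespace Pool.Agent.Results.MP_1209e6_ag.DominatedMultipleFibres

open Pool.Agent.K4H65.DM
open Pool.Agent.W602.GT (Special coords)

/-- **Campana's conjecture for the varieties dominated by varieties with multiple fibres.** `K'` is
the function field of `W`, and `L` the one of `X`; `(a, b)` are the homogeneous coordinates of the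
image of the generic point of `W` in `V`, and `x` those of the generic point of `X`. The variety `X`
is neither special nor Brody-special. -/
theorem result {N n r : ℕ} (V : ProdSet ℂ N n) (R : MPoly ℂ N n) (hRh : MHom R)
    (A : Fin n → Finset ℂ) (m : Fin n → ℂ → ℕ) (hV : MultipleFibres V R A m)
    (hwide : ∀ p, Wide r (A p) (m p))
    {K' L : Type} [Field K'] [Field L] [Algebra ℂ K'] [Algebra ℂ L] [Algebra L K']
    [IsScalarTower ℂ L K'] [FiniteDimensional L K'] (hr : Module.finrank L K' ≤ r)
    (a : Fin (N + 1) → K') (b : Fin n → Fin 2 → K') (hab : V.Mem a b)
    (hR : MvPolynomial.aeval (Sum.elim a fun v => b v.1 v.2) R ≠ 0)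
    (hb : ∃ p, Transcendental ℂ (b p 0 / b p 1))
    {M : ℕ} (x : Fin (M + 1) → L) (hx : x ≠ 0) (hgen : coords ℂ x = ⊤) :
    (∀ w : ℕ, Algebra.trdeg ℂ L = w → ¬ Special ℂ L w (fun _ => False)) ∧ ¬ BrodyDense x :=
  ⟨fun _ _ => not_special_dm hRh hV hwide hr hab hR hb,
    not_brody_dm hRh hV hwide hr hab hR hb hx hgen⟩

/-- The simplest case of the condition on the multiplicities. -/
theorem wide_example {r : ℕ} {S : Finset ℂ} {m : ℂ → ℕ} (hm : ∀ c ∈ S, r < m c)
    (hsum : 2 * (r : ℝ) < ∑ c ∈ S, (1 - 1 / (m c : ℝ))) : Wide r S m :=
  wide_of hm hsum

end Pool.Agent.Results.MP_1209e6_ag.DominatedMultipleFibres
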