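import Pool.Agent.K4H64.Ho.Brody
import Pool.Agent.K4H64.Ho.Spec

set_option autoImplicit false

/-!
# Varieties connected by fibrations in almost homogeneous varieties are special and Brody-special

Let `F` be an irreducible polynomial in `N` variables over `ℂ` and `K` the function field of the
hypersurface `F = 0` (every complex variety is birational to such a hypersurface). A dominant
rational fibration of the variety is given by an intermediate field `L` of `K`, the function field
of the base; then `K` is the function field of the generic fibre, a variety over `L`. We suppose
that finitely many such fibrations are given, by `L 1, ..., L m`, that each generic fibre has a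
projective model over `L i` whose global vector fields generate its tangent space at the generic
point, and that no nonconstant rational function is algebraic over all the `L i` (so general points
are connected by chains of fibres).

Then the varieties with the function field `K` are special in the sense of Campana (they have no
Bogomolov sheaf), and every projective variety dominated by the hypersurface has a Zariski dense
entire curve.

The generic fibres can have any dimension. Torsors under abelian varieties, and more generally under
any connected algebraic group (in a smooth equivariant compactification), toric varieties,
Grassmannians, flag varieties, quadrics, Severi-Brauer varieties, their products and all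
smooth projective varieties over `L` which become almost homogeneous over the algebraic closure
of `L` have such models. No section or multisection, no smoothness and no condition on the
degenerate fibres is supposed.

The proof. The vector fields tangent to one of the fibrations generate the Lie algebra of all
rational vector fields (an argument with exponentials of vector fields and descent). Consider the
points of the hypersurface over the field `M` of meromorphic functions on `ℂ` with the value `v` at
`0`, where `v` is a general complex point, and let `P` be one of maximal transcendence degree. The
fibre through `P` is a projective variety over `M`, and a global vector field on it can be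
integrated: for each entire function `s` with `s 0 = 0` the flow for the time `s` moves `P` to
another meromorphic point. If the vanishing ideal of `P` were not stable under the vector field, a
generic choice of `s` would give a point of larger transcendence degree. So this ideal is stable
under all the tangent vector fields, and `P` is generic. The variety is special: at the
prime divisors which dominate the base of a fibration, the global vector fields of the generic
fibre are regular (Seidenberg), so that after contraction with them the sections of a power of a
rank one sheaf of forms have no poles; they are integral over the coordinate rings of all the
charts, hence constant on the fibres.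
-/

namespace Pool.Agent.Results.MP_1209e6_ag.HomogeneousFibrations

open MvPolynomial Pool.Agent.W599.CB Pool.Agent.W572.G Pool.Agent.Y742.GG Pool.Agent.W602.GT

variable {K : Type} [Field K] [Algebra ℂ K]

/-- The derivation `D` of `K` is a global vector field on the projective variety over `L` with the
generic point `[ξ₀ : ... : ξₙ]`: it is linear over `L`, and maps the coordinate ring
`L[ξ₀/ξᵢ, ..., ξₙ/ξᵢ]` of each affine chart to itself. -/
def IsGlobalVectorField (L : IntermediateField ℂ K) {n : ℕ} (ξ : Fin (n + 1) → K)
    (D : Derivation ℂ K K) : Prop :=
  (∀ a ∈ L, D a = 0) ∧
    ∀ i j, D (ξ j / ξ i) ∈ Algebra.adjoin L (Set.range fun k => ξ k / ξ i)

/-- `K` is the function field of a projective variety over `L`, with the generic point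
`[ξ₀ : ... : ξₙ]`, whose global vector fields generate, over `K`, the space of all vector fields
(derivations of `K` over `L`). -/
def IsHomogeneousFibration (L : IntermediateField ℂ K) : Prop :=
  ∃ (n : ℕ) (ξ : Fin (n + 1) → K), (∀ i, ξ i ≠ 0) ∧
    IntermediateField.adjoin L (Set.range fun k => ξ k / ξ 0) = ⊤ ∧
    ∀ E : Derivation ℂ K K, (∀ a ∈ L, E a = 0) →
      E ∈ Submodule.span K {D | IsGlobalVectorField L ξ D}

/-- Let `F` be an irreducible polynomial over `ℂ` and let `K` be the function field of `F = 0`. Let
`L i` be finitely many intermediate fields such that `K` is over `L i` the function field of a
projective variety whose tangent space at the generic point is generated by global vector fields.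
Suppose that the elements of `K` which are algebraic over every `L i` are constant. Then `K` is the
function field of special varieties, and every projective variety dominated by the hypersurface
`F = 0`, that is, the Zariski closure of its image under a rational map `[ξ₀ : ... : ξ_M]`, has a
Zariski dense entire curve. -/
theorem result {N m : ℕ} (F : MvPolynomial (Fin N) ℂ) (hF : Irreducible F)
    {K : Type} [Field K] [Algebra ℂ K] {x : Fin N → K} (hx : IsGenericPoint F x)
    (L : Fin m → IntermediateField ℂ K) (hL : ∀ i, IsHomogeneousFibration (L i))
    (hinv : ∀ a : K, (∀ i, IsAlgebraic (L i) a) → a ∈ Set.range (algebraMap ℂ K)) :
    (∃ w : ℕ, Algebra.trdeg ℂ K = w ∧ Special ℂ K w (fun _ => False)) ∧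
    ∀ (M : ℕ) (ξ : Fin (M + 1) → MvPolynomial (Fin N) ℂ),
      (ratImage {v | eval v F = 0} ξ).Nonempty →
      IsBrodySpecial (zariskiClosure (ratImage {v | eval v F = 0} ξ)) := by
  choose n η hη hgen hspan using hL
  exact ⟨Pool.Agent.K4H64.Ho.special_of_globals hx L η hη hgen hspan hinv, fun _ ξ hξ =>
    Pool.Agent.K4H64.Ho.brody_of_globals hF hx L η hη hgen hspan hinv ξ hξ⟩

end Pool.Agent.Results.MP_1209e6_ag.HomogeneousFibrations
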