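import Pool.Agent.K4H65.DM.CampFin

/-!
MP_1209e6_ag, Q1: Campana's conjecture for all closed subvarieties of the images, under finite
morphisms with fibres of at most `r` points, of varieties with multiple fibres over projective
lines.

`W = {Ψ = 0}` and `X = {Φ = 0}` are projective varieties, `G : W → X` is a finite surjective morphism
with fibres of at most `r` points (`Mor`, `Onto`, `FibresLe`), and `b 1, ..., b n` are morphisms from
`W` to the projective line (`LineMap`). The fibre of `b p` over each point `c` of a finite set `A p`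
has multiplicity at least `mu p c` (`LineMap.Multiple`). The multiplicities are large with respect to
`r` (`Wide`): for all `g, s ≥ 1` with `g s ≤ r` and all `p` the sum of the numbers
`1 - 1 / ⌈mu p c / g⌉`, `c ∈ A p`, is larger than `2 s`. This holds for instance if `mu p c > r` for
all `c ∈ A p` and `∑ (1 - 1 / mu p c) > 2 r` (`wide_example`). No assumption is made on the
singularities of `W` and `X` and the branch locus of `G`, and `X` does not map to the lines.

The images under `G` of the fibres of `(b 1, ..., b n) : W → (P^1)^n` are closed subsets of `X`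
(`fibreImage`; the fibres can have any dimension). Let `Z` be any closed subvariety of `X`, for
instance `X` itself.

1. If `Z` is special, or `Z` is Brody-special, then `Z` lies in the image of a fibre.
2. If Campana's conjecture (Q1) holds for the closed subvarieties of the images of the fibres, then
   it holds for all closed subvarieties of `X`.
3. If `(b 1, ..., b n)` is finite, then Campana's conjecture holds for all closed subvarieties of
   `X`: those of positive dimension are neither special nor Brody-special.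

The definitions are in `Pool/Agent/K4H65/DM/CampDefs.lean` (`BrodyDense`, `CampanaFor`),
`Pool/Agent/K4H65/DM/FinDefs.lean` (`LineMap`, `At`, `Multiple`, `FiniteFibres`, `fibreImage`),
`Pool/Agent/K4H65/DM/Defs.lean` (`Wide`), `Pool/Agent/Y221/FQ/Defs.lean` (`Mor`, `Onto`,
`FibresLe`), `Pool/Agent/W602/GT/SpecDefs.lean` (`Special`; the boundary is empty) and
`Pool/Agent/W602/GT/SpDefs.lean` (`SubVar`).
-/

set_option autoImplicit false

namespace Pool.Agent.Results.MP_1209e6_ag.SubvarietiesOfImages

open Pool.Agent.K4H65.DM Pool.Agent.Y221.FQ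
open Pool.Agent.W602.GT (Cone IsForm Special SubVar val)

/-- **Campana's conjecture for the closed subvarieties of the finite images of varieties with
multiple fibres.** -/
theorem result {m M n r : ℕ} {κ μ : Type} {Ψ : κ → MvPolynomial (Fin (m + 1)) ℂ}
    {Φ : μ → MvPolynomial (Fin (M + 1)) ℂ} {G : Fin (M + 1) → MvPolynomial (Fin (m + 1)) ℂ}
    (hΨ : ∀ e, IsForm (Ψ e)) (hΦ : ∀ e, IsForm (Φ e)) (hG : Mor Ψ Φ G) (hon : Onto Ψ Φ G)
    (hfib : FibresLe Ψ G r)
    (b : Fin n → LineMap Ψ) (A : Fin n → Finset ℂ) (mu : Fin n → ℂ → ℕ)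
    (hb : ∀ p, (b p).Multiple (A p) (mu p)) (hwide : ∀ p, Wide r (A p) (mu p)) :
    (∀ (K : Type) [Field K] [Algebra ℂ K] (w : ℕ) (z : Fin (M + 1) → K), SubVar Φ K w z →
      (Special ℂ K w (fun _ => False) ∨ BrodyDense z) →
      ∃ q : Fin n → Fin 2 → ℂ, ∀ e, val z (fibreImage G b q e) = 0) ∧
    ((∀ q, CampanaFor (fibreImage G b q)) → CampanaFor Φ) ∧
    (FiniteFibres b → CampanaFor Φ ∧
      ∀ (K : Type) [Field K] [Algebra ℂ K] (w : ℕ) (z : Fin (M + 1) → K), SubVar Φ K w z →
        1 ≤ w → ¬ Special ℂ K w (fun _ => False) ∧ ¬ BrodyDense z) := by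
  refine ⟨fun K _ _ w z hz h => ?_, campana_fibres hΨ hG hon hfib hb hwide hΦ,
    fun hfin => ⟨fun K _ _ w z hz => ⟨fun h => ?_, fun h => ?_⟩, fun K _ _ w z hz hw => ?_⟩⟩
  · rcases h with h | h
    · exact special_fibre hΨ hG hon hfib hb hwide hz h
    · exact brody_fibre hΨ hG hon hfib hb hwide hΦ hz h
  · obtain ⟨l, a, hl, ha⟩ := point_of hΨ hG hon hfib hb hwide hΦ hfin hz (Or.inl h)
    exact (point_both hz hl ha).2
  · obtain ⟨l, a, hl, ha⟩ := point_of hΨ hG hon hfib hb hwide hΦ hfin hz (Or.inr h)
    exact (point_both hz hl ha).1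
  · have h0 : ¬ (Special ℂ K w (fun _ => False) ∨ BrodyDense z) := by
      intro h
      obtain ⟨l, a, hl, ha⟩ := point_of hΨ hG hon hfib hb hwide hΦ hfin hz h
      have := (point_bot hz hl ha).2
      omega
    exact ⟨fun h => h0 (Or.inl h), fun h => h0 (Or.inr h)⟩

/-- The simplest case of the condition on the multiplicities. -/
theorem wide_example {r : ℕ} {S : Finset ℂ} {m : ℂ → ℕ} (hm : ∀ c ∈ S, r < m c)
    (hsum : 2 * (r : ℝ) < ∑ c ∈ S, (1 - 1 / (m c : ℝ))) : Wide r S m :=
  wide_of hm hsum

end Pool.Agent.Results.MP_1209e6_ag.SubvarietiesOfImages
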